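import Mathlib
import Pool.Agent.Q47.ED

/-!
# MP_5904a2_co: the ratio of the path variant to the distance game is unbounded
-/

namespace Pool.Agent.Results.MP_5904a2_co.UnboundedRatio

open Q47ED

/-- `Forces R m S u`: in the game with move relation `R` (when the token is at `u` and the
Explorer names `l ≥ 1`, legal if some `x` satisfies `R u l x`, the Director moves the token to any
`x` with `R u l x`), from the position with visited set `S` and token at `u`, the Explorer can
force that after finitely many rounds at least `m` distinct vertices have been visited. -/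
inductive Forces {V : Type} [DecidableEq V] (R : V → ℕ → V → Prop) (m : ℕ) :
    Finset V → V → Prop
  | done {S : Finset V} {u : V} : m ≤ S.card → Forces R m S u
  | round {S : Finset V} {u : V} (l : ℕ) : 1 ≤ l → (∃ x, R u l x) →
      (∀ x, R u l x → Forces R m (insert x S) x) → Forces R m S u

/-- The value of the game from the starting vertex `v`: the largest number of distinct visited
vertices (the starting vertex included) that the Explorer can force. -/
noncomputable def value {V : Type} [DecidableEq V] (R : V → ℕ → V → Prop) (v : V) : ℕ :=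
  sSup {m | Forces R m {v} v}

/-- The value of the distance game. -/
noncomputable def fd {V : Type} [DecidableEq V] (G : SimpleGraph V) (v : V) : ℕ :=
  value (fun u d x => G.dist u x = d) v

/-- The value of the path variant. -/
noncomputable def fp {V : Type} [DecidableEq V] (G : SimpleGraph V) (v : V) : ℕ :=
  value (fun u l x => ∃ w : G.Walk u x, w.IsPath ∧ w.length = l) v

/-! ## Generic facts on the game -/

section generic

variable {V : Type} [DecidableEq V] {R : V → ℕ → V → Prop}

theorem Forces.le_card [Fintype V] {m : ℕ} {S : Finset V} {u : V} (h : Forces R m S u) :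
    m ≤ Fintype.card V := by
  induction h with
  | done h => exact h.trans (Finset.card_le_univ _)
  | round l _ hex _ ih =>
    obtain ⟨x, hx⟩ := hex
    exact ih x hx

theorem le_value [Fintype V] {m : ℕ} {v : V} (h : Forces R m {v} v) : m ≤ value R v := by
  have hb : BddAbove {m | Forces R m {v} v} := ⟨Fintype.card V, fun m hm => Forces.le_card hm⟩
  exact le_csSup hb h

/-- If the Director can always answer inside `K`, at most `|K|` vertices get visited. -/
theorem Forces.le_of_trap {m : ℕ} {S : Finset V} {u : V} (h : Forces R m S u) (K : Finset V)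
    (hK : ∀ u ∈ K, ∀ l, 1 ≤ l → (∃ x, R u l x) → ∃ x ∈ K, R u l x) (hu : u ∈ K) (hS : S ⊆ K) :
    m ≤ K.card := by
  induction h with
  | done h => exact h.trans (Finset.card_le_card hS)
  | @round S u l hl hex _ ih =>
    obtain ⟨x, hxK, hx⟩ := hK u hu l hl hex
    exact ih x hx hxK (Finset.insert_subset hxK hS)

theorem value_le_of_trap {v : V} (K : Finset V)
    (hK : ∀ u ∈ K, ∀ l, 1 ≤ l → (∃ x, R u l x) → ∃ x ∈ K, R u l x) (hv : v ∈ K) :
    value R v ≤ K.card := by
  apply csSup_le'
  intro m hm
  exact Forces.le_of_trap hm K hK hv (Finset.singleton_subset_iff.mpr hv)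

theorem value_pos [Fintype V] (v : V) : 1 ≤ value R v :=
  le_value (Forces.done (by simp))

end generic

variable {n : ℕ}

/-! ## The path variant -/

theorem forces_chain : ∀ (r : ℕ) (i : ℕ) (hi : i + r = n) (S : Finset (Vtx n)) (u : Vtx n),
    u.1 = .P ⟨i, by omega⟩ → u ∈ S →
    (∀ j : Fin (n + 1), j.val ≤ i → ∃ x ∈ S, x.1 = .P j) →
    Forces (fun u l x => ∃ w : (gr n).Walk u x, w.IsPath ∧ w.length = l) (n + 1) S u := by
  intro r
  induction r with
  | zero =>
    intro i hi S u _ _ hS
    apply Forces.done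
    have : ∀ j : Fin (n + 1), ∃ x ∈ S, x.1 = .P j := fun j => hS j (by omega)
    choose g hg hg' using this
    have hinj : Function.Injective g := by
      intro a b hab
      have := hg' a
      rw [hab, hg' b] at this
      exact (Blk.P.inj this).symm
    calc n + 1 = ((Finset.univ : Finset (Fin (n + 1))).image g).card := by
          rw [Finset.card_image_of_injective _ hinj]; simp
      _ ≤ S.card := by
          apply Finset.card_le_card
          intro x hx
          rw [Finset.mem_image] at hx
          obtain ⟨j, _, rfl⟩ := hx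
          exact hg j
  | succ r ih =>
    intro i hi S u hu huS hS
    obtain ⟨y, hy⟩ := PO_canonical (n := n) i (by omega) u hu
    obtain ⟨w, hw, hwl⟩ := hy.exists_path
    refine Forces.round w.length ?_ ⟨y, w, hw, rfl⟩ ?_
    · by_contra hcon
      have hw0 : w.length = 0 := by omega
      have h1 := end_of_path i (by omega) u y hu w hw hwl
      have huy : u.1 = y.1 := congrArg _ (SimpleGraph.Walk.eq_of_length_eq_zero hw0)
      rw [hu, h1] at huy
      have h2 := Blk.P.inj huy
      rw [Fin.ext_iff] at h2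
      simp at h2
    · rintro x ⟨w', hw', hl⟩
      have hx := end_of_path i (by omega) u x hu w' hw' (by rw [hl]; exact hwl)
      apply ih (i + 1) (by omega) _ x hx (Finset.mem_insert_self _ _)
      intro j hj
      by_cases hji : j.val ≤ i
      · obtain ⟨x', hx', hx''⟩ := hS j hji
        exact ⟨x', Finset.mem_insert_of_mem hx', hx''⟩
      · refine ⟨x, Finset.mem_insert_self _ _, ?_⟩
        rw [hx]
        congr 1
        apply Fin.ext
        simp only
        omega

theorem fp_ge (v : Vtx n) (hv : v.1 = .P ⟨0, by omega⟩) : n + 1 ≤ fp (gr n) v := by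
  apply le_value
  apply forces_chain n 0 (by omega) {v} v hv (Finset.mem_singleton_self v)
  intro j hj
  refine ⟨v, Finset.mem_singleton_self v, ?_⟩
  rw [hv]
  congr 1
  apply Fin.ext
  simp only
  omega

/-! ## The distance game -/

theorem adj_hub_z (j : Fin (n + 3)) : (gr n).Adj (hubv n) (zv j) :=
  adj_of_badj (by simp [hubv, zv, badj])

/-- Every vertex is the hub, a neighbour of the hub, or a neighbour of a neighbour of the hub. -/
theorem near_hub (x : Vtx n) : ∃ w : (gr n).Walk (hubv n) x, w.length ≤ 2 := by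
  rcases hx : x.1 with _ | j | j | j
  · rw [eq_hubv hx]
    exact ⟨SimpleGraph.Walk.nil, by simp⟩
  · rw [eq_zv hx]
    exact ⟨SimpleGraph.Walk.cons (adj_hub_z j) SimpleGraph.Walk.nil, by simp⟩
  · have h : (gr n).Adj (zv ⟨j.val, by omega⟩) x := adj_of_badj (by rw [hx]; simp [zv, badj])
    exact ⟨SimpleGraph.Walk.cons (adj_hub_z _) (SimpleGraph.Walk.cons h SimpleGraph.Walk.nil),
      by simp⟩
  · have h : (gr n).Adj (zv ⟨j.val + 1, by omega⟩) x := adj_of_badj (by rw [hx]; simp [zv, badj])
    exact ⟨SimpleGraph.Walk.cons (adj_hub_z _) (SimpleGraph.Walk.cons h SimpleGraph.Walk.nil),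
      by simp⟩

theorem connected : (gr n).Connected := by
  have : Nonempty (Vtx n) := ⟨hubv n⟩
  refine SimpleGraph.Connected.mk ?_
  intro u v
  obtain ⟨w1, _⟩ := near_hub u
  obtain ⟨w2, _⟩ := near_hub v
  exact w1.reachable.symm.trans w2.reachable

/-- The potential on blocks. -/
def phi : Blk n → ℤ
  | .hub => 2
  | .z j => if j.val = 1 then 1 else if j.val = 3 then 3 else 2
  | .T _ => 2
  | .P j => if j.val = 0 then 0 else if j.val = 2 then 4 else 2

theorem phi_badj (a b : Blk n) (h : badj a b) : |phi a - phi b| ≤ 1 := by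
  rcases a with _ | i | i | i <;> rcases b with _ | j | j | j <;> simp only [badj] at h
  · simp only [phi]
    split_ifs <;> simp
  · simp only [phi]
    split_ifs <;> simp
  · simp only [phi]
    by_cases h0 : j.val = 0
    · simp [h0, h]
    · by_cases h2 : j.val = 2
      · simp [h2, h]
      · have e1 : ¬ (i.val = 1) := by omega
        have e3 : ¬ (i.val = 3) := by omega
        simp [h0, h2, e1, e3]

theorem phi_adj {u v : Vtx n} (h : (gr n).Adj u v) : |phi u.1 - phi v.1| ≤ 1 := by
  obtain ⟨_, h | h | h⟩ := h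
  · rw [h]; simp
  · exact phi_badj _ _ h
  · rw [abs_sub_comm]; exact phi_badj _ _ h

theorem phi_walk {u v : Vtx n} (w : (gr n).Walk u v) : |phi u.1 - phi v.1| ≤ w.length := by
  induction w with
  | nil => simp
  | @cons u v x h w ih =>
    have := phi_adj h
    rw [SimpleGraph.Walk.length_cons]
    push_cast
    calc |phi u.1 - phi x.1| = |(phi u.1 - phi v.1) + (phi v.1 - phi x.1)| := by ring_nf
      _ ≤ |phi u.1 - phi v.1| + |phi v.1 - phi x.1| := abs_add_le _ _
      _ ≤ _ := by linarith

theorem phi_dist (u v : Vtx n) : |phi u.1 - phi v.1| ≤ (gr n).dist u v := by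
  obtain ⟨w, hw⟩ := (connected (n := n)).exists_walk_length_eq_dist u v
  rw [← hw]
  exact phi_walk w

theorem dist_hub_le (x : Vtx n) : (gr n).dist (hubv n) x ≤ 2 := by
  obtain ⟨w, hw⟩ := near_hub x
  exact (SimpleGraph.dist_le w).trans hw

/-- The geodesic in which the Director keeps the token. -/
def geo (hn : 2 ≤ n) (v : Vtx n) : ℕ → Vtx n
  | 0 => v
  | 1 => zv ⟨1, by omega⟩
  | 2 => hubv n
  | 3 => zv ⟨3, by omega⟩
  | _ => ⟨.P ⟨2, by omega⟩, ⟨0, by simp [size]⟩⟩

theorem geo_adj (hn : 2 ≤ n) (v : Vtx n) (hv : v.1 = .P ⟨0, by omega⟩) (i : ℕ) (hi : i < 4) :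
    (gr n).Adj (geo hn v i) (geo hn v (i + 1)) := by
  have : i = 0 ∨ i = 1 ∨ i = 2 ∨ i = 3 := by omega
  rcases this with rfl | rfl | rfl | rfl
  · apply adj_of_badj'
    simp [geo, hv, zv, badj]
  · exact (adj_hub_z _).symm
  · exact adj_hub_z _
  · apply adj_of_badj
    simp [geo, zv, badj]

theorem geo_phi (hn : 2 ≤ n) (v : Vtx n) (hv : v.1 = .P ⟨0, by omega⟩) (i : ℕ) (hi : i ≤ 4) :
    phi (geo hn v i).1 = i := by
  have : i = 0 ∨ i = 1 ∨ i = 2 ∨ i = 3 ∨ i = 4 := by omega
  rcases this with rfl | rfl | rfl | rfl | rfl <;> simp [geo, hv, zv, hubv, phi]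

theorem geo_dist_le (hn : 2 ≤ n) (v : Vtx n) (hv : v.1 = .P ⟨0, by omega⟩) (i : ℕ) :
    ∀ r : ℕ, i + r ≤ 4 → (gr n).dist (geo hn v i) (geo hn v (i + r)) ≤ r := by
  intro r
  induction r with
  | zero => intro _; simp
  | succ r ih =>
    intro h
    have h1 := ih (by omega)
    have h2 := geo_adj hn v hv (i + r) (by omega)
    have h3 := (connected (n := n)).dist_triangle (u := geo hn v i) (v := geo hn v (i + r))
      (w := geo hn v (i + r + 1))
    have h4 : (gr n).dist (geo hn v (i + r)) (geo hn v (i + r + 1)) = 1 :=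
      SimpleGraph.dist_eq_one_iff_adj.mpr h2
    rw [← add_assoc]
    omega

theorem geo_dist (hn : 2 ≤ n) (v : Vtx n) (hv : v.1 = .P ⟨0, by omega⟩) (i r : ℕ)
    (h : i + r ≤ 4) : (gr n).dist (geo hn v i) (geo hn v (i + r)) = r := by
  apply le_antisymm (geo_dist_le hn v hv i r h)
  have := phi_dist (geo hn v i) (geo hn v (i + r))
  rw [geo_phi hn v hv i (by omega), geo_phi hn v hv (i + r) h] at this
  push_cast at this
  rw [show (i : ℤ) - (i + r) = -(r : ℤ) by ring, abs_neg, Nat.abs_cast] at this
  exact_mod_cast this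

theorem fd_le (hn : 2 ≤ n) (v : Vtx n) (hv : v.1 = .P ⟨0, by omega⟩) : fd (gr n) v ≤ 5 := by
  have hcard : ((Finset.range 5).image (geo hn v)).card ≤ 5 :=
    Finset.card_image_le.trans (by simp)
  refine (value_le_of_trap ((Finset.range 5).image (geo hn v)) ?_ ?_).trans hcard
  · intro u hu l hl hex
    rw [Finset.mem_image] at hu
    obtain ⟨i, hi, rfl⟩ := hu
    rw [Finset.mem_range] at hi
    obtain ⟨x, hx⟩ := hex
    have htri := (connected (n := n)).dist_triangle (u := geo hn v i) (v := hubv n) (w := x)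
    have hub2 := dist_hub_le x
    have hgeo2 : geo hn v 2 = hubv n := rfl
    by_cases hi2 : i ≤ 2
    · have e := geo_dist hn v hv i (2 - i) (by omega)
      rw [show i + (2 - i) = 2 by omega, hgeo2] at e
      refine ⟨geo hn v (i + l), ?_, ?_⟩
      · rw [Finset.mem_image]
        exact ⟨i + l, by rw [Finset.mem_range]; omega, rfl⟩
      · exact geo_dist hn v hv i l (by omega)
    · have e := geo_dist hn v hv 2 (i - 2) (by omega)
      rw [show 2 + (i - 2) = i by omega, hgeo2, SimpleGraph.dist_comm] at e
      refine ⟨geo hn v (i - l), ?_, ?_⟩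
      · rw [Finset.mem_image]
        exact ⟨i - l, by rw [Finset.mem_range]; omega, rfl⟩
      · have := geo_dist hn v hv (i - l) l (by omega)
        rw [show i - l + l = i by omega, SimpleGraph.dist_comm] at this
        exact this
  · rw [Finset.mem_image]
    exact ⟨0, by simp, rfl⟩

/-- **The ratio `f_p / f_d` is unbounded**: there are finite connected graphs with a starting
vertex at which `f_d ≤ 5` while `f_p` is arbitrarily large; so for every real `k` some finite
connected graph and starting vertex have `f_p / f_d > k`. -/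
theorem result :
    (∀ m : ℕ, ∃ (V : Type) (_ : Fintype V) (_ : DecidableEq V) (G : SimpleGraph V) (v : V),
      G.Connected ∧ 1 ≤ fd G v ∧ fd G v ≤ 5 ∧ m ≤ fp G v) ∧
    (∀ k : ℝ, ∃ (V : Type) (_ : Fintype V) (_ : DecidableEq V) (G : SimpleGraph V) (v : V),
      G.Connected ∧ 1 ≤ fd G v ∧ (fp G v : ℝ) / (fd G v : ℝ) > k) := by
  have main : ∀ m : ℕ, ∃ (V : Type) (_ : Fintype V) (_ : DecidableEq V) (G : SimpleGraph V)
      (v : V), G.Connected ∧ 1 ≤ fd G v ∧ fd G v ≤ 5 ∧ m ≤ fp G v := by
    intro m
    have hn : 2 ≤ m + 2 := by omega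
    refine ⟨Vtx (m + 2), inferInstance, inferInstance, gr (m + 2),
      ⟨.P ⟨0, by omega⟩, ⟨0, by simp [size]⟩⟩, connected, value_pos _, fd_le hn _ rfl, ?_⟩
    have := fp_ge (n := m + 2) ⟨.P ⟨0, by omega⟩, ⟨0, by simp [size]⟩⟩ rfl
    omega
  refine ⟨main, ?_⟩
  intro k
  obtain ⟨m, hm⟩ := exists_nat_gt (5 * max k 0)
  obtain ⟨V, i1, i2, G, v, hG, h1, h5, hm'⟩ := main m
  refine ⟨V, i1, i2, G, v, hG, h1, ?_⟩
  have hpos : (0 : ℝ) < fd G v := by exact_mod_cast h1
  have h5' : (fd G v : ℝ) ≤ 5 := by exact_mod_cast h5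
  have hm'' : (m : ℝ) ≤ fp G v := by exact_mod_cast hm'
  have hk0 : (0 : ℝ) ≤ max k 0 := le_max_right _ _
  have hk1 : k ≤ max k 0 := le_max_left _ _
  rw [gt_iff_lt, lt_div_iff₀ hpos]
  calc k * (fd G v : ℝ) ≤ max k 0 * (fd G v : ℝ) := by
        exact mul_le_mul_of_nonneg_right hk1 hpos.le
    _ ≤ max k 0 * 5 := mul_le_mul_of_nonneg_left h5' hk0
    _ < m := by linarith
    _ ≤ _ := hm''

end Pool.Agent.Results.MP_5904a2_co.UnboundedRatio
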